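import Mathlib

/-! Project VH, package EQV (second attempt): coordinates. -/

set_option autoImplicit false

namespace Pool.Agent.Helper41.VH

open Finset

theorem coord {ι : Type} [Fintype ι] [DecidableEq ι] {K : Type*} [Field K] {m : ℕ} (l : Fin m)
    (s : (Fin m → ι) → K) (X : ι → ι → K) (h : (Fin m → ι) → (Fin m → ι) → K)
    (hs : ∀ w c, s (Function.update w l c) = s w)
    (hX : ∀ w j c, j ≠ l → s (Function.update w j c) * X (w j) c = s w * X (w j) c) (i i' : ι) :
    ∑ w with w l = i, s w *
      (∑ j, ∑ c, X ((Function.update w l i') j) c *
          h (Function.update (Function.update w l i') j c) w -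
        ∑ j, ∑ a, X a (w j) * h (Function.update w l i') (Function.update w j a)) =
      ∑ c, X i' c * (∑ w with w l = i, s w * h (Function.update w l c) w) -
        ∑ a, X a i * (∑ w with w l = a, s w * h (Function.update w l i') w) := by
  classical
  have h1 : ∀ j, j ≠ l →
      ∑ w : Fin m → ι with w l = i, s w * ∑ c, X ((Function.update w l i') j) c *
          h (Function.update (Function.update w l i') j c) w =
      ∑ w : Fin m → ι with w l = i, s w *
        ∑ a, X a (w j) * h (Function.update w l i') (Function.update w j a) := by
    intro j hj
    simp only [mul_sum]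
    rw [← sum_product', ← sum_product']
    refine sum_bij' (fun p _ => (Function.update p.1 j p.2, p.1 j))
      (fun p _ => (Function.update p.1 j p.2, p.1 j)) ?_ ?_ ?_ ?_ ?_
    · rintro ⟨w, c⟩ hw
      simp only [mem_product, mem_filter, mem_univ, true_and, and_true] at hw ⊢
      rw [Function.update_of_ne hj.symm]
      exact hw
    · rintro ⟨w, c⟩ hw
      simp only [mem_product, mem_filter, mem_univ, true_and, and_true] at hw ⊢
      rw [Function.update_of_ne hj.symm]
      exact hw
    · rintro ⟨w, c⟩ _
      simp
    · rintro ⟨w, c⟩ _
      simp
    · rintro ⟨w, c⟩ _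
      simp only [Function.update_self, Function.update_idem, Function.update_eq_self]
      rw [Function.update_of_ne hj, Function.update_comm hj, ← mul_assoc, ← mul_assoc,
        hX w j c hj]
  have h2 : ∑ w : Fin m → ι with w l = i, s w * ∑ c, X ((Function.update w l i') l) c *
          h (Function.update (Function.update w l i') l c) w =
      ∑ c, X i' c * (∑ w with w l = i, s w * h (Function.update w l c) w) := by
    simp only [mul_sum, Function.update_self, Function.update_idem]
    rw [sum_comm]
    refine sum_congr rfl fun c _ => sum_congr rfl fun w _ => ?_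
    ring
  have h3 : ∑ w : Fin m → ι with w l = i, s w *
        ∑ a, X a (w l) * h (Function.update w l i') (Function.update w l a) =
      ∑ a, X a i * (∑ w with w l = a, s w * h (Function.update w l i') w) := by
    simp only [mul_sum]
    rw [sum_comm]
    refine sum_congr rfl fun a _ => ?_
    refine sum_bij' (fun w _ => Function.update w l a) (fun w _ => Function.update w l i)
      ?_ ?_ ?_ ?_ ?_
    · intro w _
      simp
    · intro w _
      simp
    · intro w hw
      rw [mem_filter] at hw
      rw [Function.update_idem, ← hw.2, Function.update_eq_self]
    · intro w hw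
      rw [mem_filter] at hw
      rw [Function.update_idem, ← hw.2, Function.update_eq_self]
    · intro w hw
      rw [mem_filter] at hw
      rw [hs, Function.update_idem, hw.2]
      ring
  simp only [mul_sub, sum_sub_distrib]
  have e : ∀ f : Fin m → (Fin m → ι) → K, ∑ w : Fin m → ι with w l = i, s w * ∑ j, f j w =
      ∑ j, ∑ w : Fin m → ι with w l = i, s w * f j w := by
    intro f
    simp only [mul_sum]
    rw [sum_comm]
  rw [e, e, ← add_sum_erase _ _ (mem_univ l), ← add_sum_erase univ
    (fun j => ∑ w : Fin m → ι with w l = i, s w *
        ∑ a, X a (w j) * h (Function.update w l i') (Function.update w j a)) (mem_univ l), h2, h3,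
    sum_congr rfl fun j hj => h1 j (ne_of_mem_erase hj)]
  ring

end Pool.Agent.Helper41.VH
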