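import Pool.Agent.Helper96.VH.Defs
import Pool.Agent.Helper96.SP.PWD
import Pool.Agent.Helper41.VH.Coord

/-! Project VH, package EQV (second attempt). -/

open CategoryTheory MonoidalCategory Limits BraidedCategory

universe u v w

namespace Pool.Agent.Helper41.VH

open Pool.Agent.TH90.AB Pool.Agent.TH90.Kim Pool.Agent.Helper96.Kim Pool.Agent.Helper96.SP
  Pool.Agent.Helper96.VH

set_option linter.unusedSectionVars false

variable {𝒜 : Type u} [Category.{v} 𝒜] [MonoidalCategory 𝒜] [SymmetricCategory 𝒜]
  [Preadditive 𝒜] [MonoidalPreadditive 𝒜] [Linear ℚ 𝒜] [MonoidalLinear ℚ 𝒜]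
  [hdual : ∀ X : 𝒜, HasRightDual X] {K : Type w} [Field K] [CharZero K] {F : Realisation 𝒜 K}

theorem eqv {M : 𝒜} {ι : Type} [Fintype ι] [DecidableEq ι] (b : Module.Basis ι K (F.V M))
    (δ : ι → ℚ) (hδ : ∀ i, δ i = 1 ∨ δ i = -1) (hb : ∀ i, F.par M (b i) = (δ i : K) • b i) (n : ℕ)
    (B : Module.Basis (Fin (n + 1) → ι) K (F.V (T M (n + 1))))
    (hB : ∀ w, B w = wd F (n + 1) fun j => b (w j))
    (C : (F.V (T M (n + 1)) →ₗ[K] F.V (T M (n + 1))) →ₗ[K] (F.V M →ₗ[K] F.V M))
    (hC : ∀ (H : F.V (T M (n + 1)) →ₗ[K] F.V (T M (n + 1))) (i : ι),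
        C H (b i) = ∑ i', (∑ w with w (Fin.last n) = i,
          ((∏ k : Fin n, δ (w k.castSucc) : ℚ) : K) *
            B.repr (H (B w)) (Function.update w (Fin.last n) i')) • b i')
    (x : F.V M →ₗ[K] F.V M) (hx : Ev F x) (E : F.V (T M (n + 1)) →ₗ[K] F.V (T M (n + 1)))
    (hE : IsDer F x (n + 1) E) (H : F.V (T M (n + 1)) →ₗ[K] F.V (T M (n + 1))) :
    C (E ∘ₗ H - H ∘ₗ E) = x ∘ₗ C H - C H ∘ₗ x := by
  classical
  set X : ι → ι → K := fun a c => b.repr (x (b c)) a with hXd
  have hxb : ∀ c, x (b c) = ∑ a, X a c • b a := fun c => (b.sum_repr (x (b c))).symm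
  -- the operator is even
  have hXe : ∀ a c, X a c ≠ 0 → δ a = δ c := by
    intro a c hac
    have h1 := hx (b c)
    rw [hb, _root_.map_smul] at h1
    have h2 := congrArg (fun z => b.repr z a) h1
    simp only [_root_.map_smul, Finsupp.smul_apply, smul_eq_mul] at h2
    have h3 : b.repr (F.par M (x (b c))) a = (δ a : K) * X a c := by
      rw [hxb, _root_.map_sum, _root_.map_sum, Finsupp.finsetSum_apply]
      rw [Finset.sum_eq_single a]
      · rw [_root_.map_smul, hb, _root_.map_smul, _root_.map_smul, Finsupp.smul_apply,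
          Finsupp.smul_apply, Module.Basis.repr_self, Finsupp.single_eq_same, smul_eq_mul,
          smul_eq_mul, mul_one, mul_comm]
      · intro a' _ ha'
        rw [_root_.map_smul, hb, _root_.map_smul, _root_.map_smul, Finsupp.smul_apply,
          Finsupp.smul_apply, Module.Basis.repr_self, Finsupp.single_eq_of_ne (Ne.symm ha'),
          smul_zero, smul_zero]
      · intro h; exact absurd (Finset.mem_univ a) h
    rw [h3] at h2
    have h4 : (δ a : K) = (δ c : K) := mul_right_cancel₀ hac h2
    exact_mod_cast h4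
  -- the derivation on the basis
  have hEB : ∀ w : Fin (n + 1) → ι, E (B w) =
      ∑ j, ∑ a, X a (w j) • B (Function.update w j a) := by
    intro w
    rw [hB, hE]
    refine Finset.sum_congr rfl fun j _ => ?_
    rw [hxb, ← WD.wdM_apply]
    rw [MultilinearMap.map_update_sum]
    refine Finset.sum_congr rfl fun a _ => ?_
    rw [MultilinearMap.map_update_smul, WD.wdM_apply, hB]
    congr 2
    funext k
    by_cases hk : k = j
    · subst hk; simp
    · simp [Function.update_of_ne hk]
  set h : (Fin (n + 1) → ι) → (Fin (n + 1) → ι) → K := fun w' w => B.repr (H (B w)) w' with hh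
  have hEH : ∀ w w', B.repr (E (H (B w))) w' =
      ∑ j, ∑ c, X (w' j) c * h (Function.update w' j c) w := by
    intro w w'
    have h1 : H (B w) = ∑ u, h u w • B u := (B.sum_repr (H (B w))).symm
    rw [h1]
    simp only [_root_.map_sum, _root_.map_smul, hEB, Finsupp.finsetSum_apply, Finsupp.smul_apply,
      Module.Basis.repr_self, smul_eq_mul, Finset.mul_sum]
    rw [Finset.sum_comm]
    refine Finset.sum_congr rfl fun j _ => ?_
    rw [← Finset.sum_product']
    have h2 : ∀ p : (Fin (n + 1) → ι) × ι, h p.1 w * (X p.2 (p.1 j) *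
        (Finsupp.single (Function.update p.1 j p.2) (1 : K)) w') =
        if Function.update p.1 j p.2 = w' then X (w' j) (p.1 j) * h p.1 w else 0 := by
      intro p
      rw [Finsupp.single_apply]
      split_ifs with h3
      · rw [← h3]
        simp only [Function.update_self]
        ring
      · ring
    rw [Finset.sum_congr rfl fun p _ => h2 p, ← Finset.sum_filter]
    refine Finset.sum_bij' (fun p _ => p.1 j) (fun c _ => (Function.update w' j c, w' j))
      ?_ ?_ ?_ ?_ ?_
    · intro p _; exact Finset.mem_univ _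
    · intro c _
      simp
    · rintro ⟨u, a⟩ hp
      simp only [Finset.mem_filter] at hp
      rw [← hp.2]
      simp
    · intro c _
      simp
    · rintro ⟨u, a⟩ hp
      simp only [Finset.mem_filter] at hp
      have e : Function.update w' j (u j) = u := by
        rw [← hp.2]
        simp
      rw [e]
  have hHE : ∀ w w', B.repr (H (E (B w))) w' =
      ∑ j, ∑ a, X a (w j) * h w' (Function.update w j a) := by
    intro w w'
    rw [hEB]
    simp only [_root_.map_sum, _root_.map_smul, Finsupp.finsetSum_apply, Finsupp.smul_apply,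
      smul_eq_mul]
    rfl
  set s : (Fin (n + 1) → ι) → K := fun w => ((∏ k : Fin n, δ (w k.castSucc) : ℚ) : K) with hs
  have hs1 : ∀ w c, s (Function.update w (Fin.last n) c) = s w := by
    intro w c
    simp only [hs]
    congr 1
    refine Finset.prod_congr rfl fun k _ => ?_
    rw [Function.update_of_ne (Fin.castSucc_lt_last k).ne]
  have hs2 : ∀ w j c, j ≠ Fin.last n → s (Function.update w j c) * X (w j) c =
      s w * X (w j) c := by
    intro w j c _
    by_cases h0 : X (w j) c = 0
    · rw [h0, mul_zero, mul_zero]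
    · have h1 := hXe _ _ h0
      congr 1
      simp only [hs]
      congr 1
      refine Finset.prod_congr rfl fun k _ => ?_
      by_cases hk : k.castSucc = j
      · rw [hk, Function.update_self, h1]
      · rw [Function.update_of_ne hk]
  refine b.ext fun i => b.repr.injective (Finsupp.ext fun i' => ?_)
  have hrep : ∀ (G : F.V (T M (n + 1)) →ₗ[K] F.V (T M (n + 1))) (i i' : ι),
      b.repr (C G (b i)) i' = ∑ w with w (Fin.last n) = i, s w *
        B.repr (G (B w)) (Function.update w (Fin.last n) i') := by
    intro G i i'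
    rw [hC, _root_.map_sum, Finsupp.finsetSum_apply, Finset.sum_eq_single i']
    · rw [_root_.map_smul, Finsupp.smul_apply, Module.Basis.repr_self, Finsupp.single_eq_same,
        smul_eq_mul, mul_one]
    · intro a _ ha
      rw [_root_.map_smul, Finsupp.smul_apply, Module.Basis.repr_self,
        Finsupp.single_eq_of_ne (Ne.symm ha), smul_zero]
    · intro h; exact absurd (Finset.mem_univ i') h
  have hxr : ∀ (z : F.V M) (i' : ι), b.repr (x z) i' = ∑ c, X i' c * b.repr z c := by
    intro z i'
    conv_lhs => rw [← b.sum_repr z]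
    rw [_root_.map_sum, _root_.map_sum, Finsupp.finsetSum_apply]
    refine Finset.sum_congr rfl fun c _ => ?_
    rw [_root_.map_smul, _root_.map_smul, Finsupp.smul_apply, smul_eq_mul, mul_comm]
  rw [hrep]
  have e1 : ∀ w, B.repr ((E ∘ₗ H - H ∘ₗ E) (B w)) (Function.update w (Fin.last n) i') =
      ∑ j, ∑ c, X ((Function.update w (Fin.last n) i') j) c *
          h (Function.update (Function.update w (Fin.last n) i') j c) w -
        ∑ j, ∑ a, X a (w j) * h (Function.update w (Fin.last n) i') (Function.update w j a) := by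
    intro w
    rw [LinearMap.sub_apply, LinearMap.comp_apply, LinearMap.comp_apply, _root_.map_sub,
      Finsupp.sub_apply, hEH, hHE]
  rw [Finset.sum_congr rfl fun w _ => by rw [e1 w], coord (Fin.last n) s X h hs1 hs2 i i',
    LinearMap.sub_apply, LinearMap.comp_apply, LinearMap.comp_apply, _root_.map_sub,
    Finsupp.sub_apply, hxr]
  congr 1
  · refine Finset.sum_congr rfl fun c _ => ?_
    rw [hrep]
  · rw [hxb, _root_.map_sum, _root_.map_sum, Finsupp.finsetSum_apply]
    refine Finset.sum_congr rfl fun a _ => ?_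
    rw [_root_.map_smul, _root_.map_smul, Finsupp.smul_apply, smul_eq_mul, hrep]

end Pool.Agent.Helper41.VH
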